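import Pool.Agent.W982.AT.Defs

set_option autoImplicit false

namespace Pool.Agent.W982.AT

section C0
variable {X : Type} [Fintype X] [DecidableEq X] {m : ℕ} (v : Fin (m * 3) → X)
  (s : Fin (m * 3) → Bool)

/-- the signs of the columns -/
def C0.sig : Cl X m → ℤ
  | .wire _ _ h => if h then -1 else 1
  | .occ _ h => if h then -1 else 1
  | .pq _ _ => 1
  | .z _ _ => 1

omit [Fintype X] in
theorem fsys_gauge : ∃ σ : Cl X m → ℤ, (fsys v s).Gauge σ := by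
  refine ⟨C0.sig, ?_, ?_, ?_, ?_⟩
  · rintro (⟨x, t, h⟩ | ⟨t, h⟩ | ⟨t, h⟩ | ⟨j, h⟩) <;> cases h <;> simp [C0.sig]
  · rintro ⟨j, r⟩ a
    fin_cases r <;> fin_cases a <;> rfl
  · rintro (⟨x, t⟩ | ⟨x, t⟩ | t)
    · rfl
    · by_cases h : v t = x <;> simp [fsys, C0.sig, h]
    · rfl
  · intro c
    rfl

omit [Fintype X] in
theorem C0.oc_inj (j : Fin m) : Function.Injective (oc j) := by
  intro a b h
  have := finProdFinEquiv.injective h
  exact (Prod.ext_iff.1 this).2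

omit [Fintype X] in
theorem C0.rc_inj (r : Fin m × Fin 5) : Function.Injective ((fsys v s).rc r) := by
  obtain ⟨j, r⟩ := r
  fin_cases r
  · intro a b h
    simp only [fsys, Cl.pq.injEq, and_true] at h
    exact C0.oc_inj j h
  all_goals
    intro a b h
    fin_cases a <;> fin_cases b <;> first | rfl | (exfalso; revert h; simp [fsys])

omit [Fintype X] in
theorem fsys_injective (hm : 0 < m) : Function.Injective (fsys v s).E := by
  intro a b h
  rcases a with ⟨i, j⟩ | x | ⟨r, a⟩ | d | ⟨c, f⟩ | ⟨c, f, hh, t⟩ <;>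
  rcases b with ⟨i', j'⟩ | x' | ⟨r', a'⟩ | d' | ⟨c', f'⟩ | ⟨c', f', hh', t'⟩ <;>
  simp only [Sys.E, Prod.mk.injEq, Vt.k.injEq, Vt.col.injEq, Vt.row.injEq, Vt.br.injEq,
    reduceCtorEq, false_and, and_false] at h
  · obtain ⟨⟨-, rfl⟩, -, rfl⟩ := h; rfl
  · obtain ⟨rfl, -⟩ := h; rfl
  · obtain ⟨rfl, h2⟩ := h
    rw [C0.rc_inj v s r h2]
  · obtain ⟨h1, h2⟩ := h
    rcases d with ⟨x, t⟩ | ⟨x, t⟩ | t <;> rcases d' with ⟨x', t'⟩ | ⟨x', t'⟩ | t' <;>
      simp [fsys] at h1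
    · obtain ⟨rfl, rfl⟩ := h1; rfl
    · obtain ⟨rfl, rfl⟩ := h1; rfl
    · subst h1; rfl
  · obtain ⟨⟨rfl, rfl, -⟩, -⟩ := h; rfl
  · obtain ⟨⟨rfl, rfl, rfl⟩, h2⟩ := h
    have : t = t' := by
      revert h2
      cases f <;> cases hh <;> cases t <;> cases t' <;> simp [fsys]
    rw [this]

omit [Fintype X] in
theorem C0.nx_ne (hm : 0 < m) (t : Fin (m * 3)) : nx t ≠ t := by
  intro h
  have h1 := congrArg Fin.val h
  simp only [nx] at h1
  have h2 := t.2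
  rcases Nat.lt_or_ge (t + 1) (m * 3) with h3 | h3
  · rw [Nat.mod_eq_of_lt h3] at h1; omega
  · have h4 : (t : ℕ) + 1 = m * 3 := by omega
    rw [h4, Nat.mod_self] at h1; omega

omit [Fintype X] in
theorem fsys_swap (hm : 0 < m) : ∀ i j, (fsys v s).E i ≠ ((fsys v s).E j).swap := by
  intro a b h
  rcases a with ⟨i, j⟩ | x | ⟨r, a⟩ | d | ⟨c, f⟩ | ⟨c, f, hh, t⟩ <;>
  rcases b with ⟨i', j'⟩ | x' | ⟨r', a'⟩ | d' | ⟨c', f'⟩ | ⟨c', f', hh', t'⟩ <;>
  simp [Sys.E, Prod.swap] at h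
  obtain ⟨h1, h2⟩ := h
  rcases d with ⟨x, t⟩ | ⟨x, t⟩ | t <;> rcases d' with ⟨x', t'⟩ | ⟨x', t'⟩ | t' <;>
      simp [fsys] at h1 h2
  · split_ifs at h1 with h3
    · simp at h1
      obtain ⟨rfl, rfl⟩ := h1
      exact C0.nx_ne hm _ h2.2
  · split_ifs at h2 with h3
    · simp at h2
      obtain ⟨rfl, rfl⟩ := h1
      exact C0.nx_ne hm _ h2.2
  · split_ifs at h1 <;> simp at h1

/-- columns -/
def C0.eCl : Cl X m ≃ (X × Fin (m * 3) × Bool) ⊕ (Fin (m * 3) × Bool) ⊕ (Fin (m * 3) × Bool) ⊕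
    (Fin m × Bool) where
  toFun
    | .wire x t h => .inl (x, t, h)
    | .occ t h => .inr (.inl (t, h))
    | .pq t h => .inr (.inr (.inl (t, h)))
    | .z j h => .inr (.inr (.inr (j, h)))
  invFun
    | .inl (x, t, h) => .wire x t h
    | .inr (.inl (t, h)) => .occ t h
    | .inr (.inr (.inl (t, h))) => .pq t h
    | .inr (.inr (.inr (j, h))) => .z j h
  left_inv := by rintro (⟨x, t, h⟩ | ⟨t, h⟩ | ⟨t, h⟩ | ⟨j, h⟩) <;> rfl
  right_inv := by rintro (⟨x, t, h⟩ | ⟨t, h⟩ | ⟨t, h⟩ | ⟨j, h⟩) <;> rfl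

/-- direct edges -/
def C0.eDr : Dr X m ≃ (X × Fin (m * 3)) ⊕ (X × Fin (m * 3)) ⊕ Fin (m * 3) where
  toFun
    | .slot x t => .inl (x, t)
    | .link x t => .inr (.inl (x, t))
    | .ext t => .inr (.inr t)
  invFun
    | .inl (x, t) => .slot x t
    | .inr (.inl (x, t)) => .link x t
    | .inr (.inr t) => .ext t
  left_inv := by rintro (⟨x, t⟩ | ⟨x, t⟩ | t) <;> rfl
  right_inv := by rintro (⟨x, t⟩ | ⟨x, t⟩ | t) <;> rfl

/-- edges -/
def C0.eEt {Col Row Dir Cp : Type} : Et Col Row Dir Cp ≃ (Fin 4 × Fin 4) ⊕ Col ⊕ (Row × Fin 3) ⊕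
    Dir ⊕ (Cp × Bool) ⊕ (Cp × Bool × Bool × Bool) where
  toFun
    | .k i j => .inl (i, j)
    | .col x => .inr (.inl x)
    | .row r a => .inr (.inr (.inl (r, a)))
    | .dir d => .inr (.inr (.inr (.inl d)))
    | .mid c f => .inr (.inr (.inr (.inr (.inl (c, f)))))
    | .out c f h t => .inr (.inr (.inr (.inr (.inr (c, f, h, t)))))
  invFun
    | .inl (i, j) => .k i j
    | .inr (.inl x) => .col x
    | .inr (.inr (.inl (r, a))) => .row r a
    | .inr (.inr (.inr (.inl d))) => .dir d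
    | .inr (.inr (.inr (.inr (.inl (c, f))))) => .mid c f
    | .inr (.inr (.inr (.inr (.inr (c, f, h, t))))) => .out c f h t
  left_inv := by rintro (⟨i, j⟩ | x | ⟨r, a⟩ | d | ⟨c, f⟩ | ⟨c, f, hh, t⟩) <;> rfl
  right_inv := by rintro (⟨i, j⟩ | x | ⟨r, a⟩ | d | ⟨c, f⟩ | ⟨c, f, hh, t⟩) <;> rfl

/-- vertices -/
def C0.eVt {Col Row Cp : Type} : Vt Col Row Cp ≃ (Bool × Fin 4) ⊕ Col ⊕ Row ⊕
    (Cp × Bool × Bool) where
  toFun
    | .k i j => .inl (i, j)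
    | .col x => .inr (.inl x)
    | .row r => .inr (.inr (.inl r))
    | .br c f h => .inr (.inr (.inr (c, f, h)))
  invFun
    | .inl (i, j) => .k i j
    | .inr (.inl x) => .col x
    | .inr (.inr (.inl r)) => .row r
    | .inr (.inr (.inr (c, f, h))) => .br c f h
  left_inv := by rintro (⟨i, j⟩ | x | r | ⟨c, f, h⟩) <;> rfl
  right_inv := by rintro (⟨i, j⟩ | x | r | ⟨c, f, h⟩) <;> rfl

theorem fsys_card (hX : Fintype.card X = m * 3) :
    Fintype.card (Et (Cl X m) (Fin m × Fin 5) (Dr X m) (Fin (m * 3))) =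
      2 * Fintype.card (Vt (Cl X m) (Fin m × Fin 5) (Fin (m * 3))) := by
  rw [Fintype.card_congr (C0.eEt (Col := Cl X m) (Row := Fin m × Fin 5) (Dir := Dr X m)
      (Cp := Fin (m * 3))),
    Fintype.card_congr (C0.eVt (Col := Cl X m) (Row := Fin m × Fin 5) (Cp := Fin (m * 3)))]
  simp only [Fintype.card_sum, Fintype.card_prod, Fintype.card_fin, Fintype.card_bool,
    Fintype.card_congr (C0.eCl (X := X) (m := m)), Fintype.card_congr (C0.eDr (X := X) (m := m)),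
    hX]
  ring

end C0

end Pool.Agent.W982.AT
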